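import Pool.Agent.Helper51.REC.Goals1

set_option autoImplicit false

/-!
# Project REC (MP_fc6b1e_nt): packet K_EXT (the symbol in an extension)
-/

namespace Pool.Agent.Helper39.REC

open NumberField Module IsDedekindDomain Pool.Agent.Helper51.RP Pool.Agent.Helper42.PP
open Pool.Agent.Helper51.REC Finset

/-- The valuation of a prime above `W` is a positive power of that of `W`. -/
theorem val_above {F E : Type} [Field F] [NumberField F] [Field E] [NumberField E] [Algebra F E]
    {w : HeightOneSpectrum (𝓞 E)} {W : HeightOneSpectrum (𝓞 F)} (h : Above w W) :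
    ∃ e : ℕ, e ≠ 0 ∧ ∀ x : F, w.valuation E (algebraMap F E x) = W.valuation F x ^ e := by
  have : w.asIdeal.LiesOver W.asIdeal := ⟨h.symm⟩
  exact ⟨W.asIdeal.ramificationIdx' w.asIdeal,
    Ideal.IsDedekindDomain.ramificationIdx'_ne_zero_of_liesOver w.asIdeal W.ne_bot,
    fun x => (HeightOneSpectrum.valuation_liesOver (K := F) E W w x).symm⟩

theorem val_pow_sub_pow {F : Type} [Field F] [NumberField F] {W : HeightOneSpectrum (𝓞 F)}
    {v t : F} (hv : W.valuation F v ≤ 1) (ht : W.valuation F t ≤ 1)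
    (h : W.valuation F (v - t) < 1) (n : ℕ) : W.valuation F (v ^ n - t ^ n) < 1 := by
  induction n with
  | zero => simp
  | succ n ih =>
    have e : v ^ (n + 1) - t ^ (n + 1) = v ^ n * (v - t) + (v ^ n - t ^ n) * t := by ring
    rw [e]
    refine Valuation.map_add_lt _ ?_ ?_
    · rw [map_mul, map_pow]
      calc W.valuation F v ^ n * W.valuation F (v - t) ≤ 1 * W.valuation F (v - t) :=
            mul_le_mul_left (pow_le_one' hv n) _
        _ < 1 := by rwa [one_mul]
    · rw [map_mul]
      calc W.valuation F (v ^ n - t ^ n) * W.valuation F t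
            ≤ W.valuation F (v ^ n - t ^ n) * 1 := mul_le_mul_right ht _
        _ < 1 := by rwa [mul_one]

theorem k_ext (h1 : K_BAS) : K_EXT := by
  intro p hp F E _ _ _ _ _ ε hε W w hw hWp f hf x hx
  have hp0 : 0 < p := hp.out.pos
  obtain ⟨e, he0, he⟩ := val_above hw
  obtain ⟨hq, -, hk, -⟩ := h1 p F ε hε W hWp
  have hε' : IsPrimitiveRoot (algebraMap F E ε) p :=
    hε.map_of_injective (algebraMap F E).injective
  have hwp : w.valuation E (p : E) = 1 := by
    have := he (p : F)
    rw [map_natCast, hWp, one_pow] at this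
    exact this
  obtain ⟨-, -, hk', -⟩ := h1 p E (algebraMap F E ε) hε' w hwp
  -- divisibility
  have hxw : (p : ℤ) ∣ ordv w (inc F E x : E) := by
    have : ordv w (inc F E x : E) = e * ordv W (x : F) := by
      unfold ordv
      have h2 : ((inc F E x : Eˣ) : E) = algebraMap F E (x : F) := rfl
      rw [h2, he, WithZero.log_pow]
      simp
    rw [this]
    exact Dvd.dvd.mul_left hx _
  symm
  rw [← hk' _ hxw]
  obtain ⟨y, hy1, hy2⟩ := (hk x hx (kap p ε W x)).2 rfl
  set a := kap p ε W x with ha
  refine ⟨inc F E y, ?_, ?_⟩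
  · have h2 : ((inc F E x : Eˣ) : E) * ((inc F E y : Eˣ) : E) ^ p =
        algebraMap F E ((x : F) * (y : F) ^ p) := by
      rw [map_mul, map_pow]
      rfl
    rw [h2, he, hy1, one_pow]
  · obtain ⟨k, hk0⟩ := hq
    have hq1 : Ideal.absNorm W.asIdeal = p * k + 1 := by
      have : Ideal.absNorm W.asIdeal ≠ 0 := by
        rw [Ne, Ideal.absNorm_eq_zero_iff]
        exact W.ne_bot
      omega
    set n := ∑ i ∈ range f, (p * k + 1) ^ i with hn
    have hgs : n * (p * k) + 1 = (p * k + 1) ^ f := geom_sum_mul_add (p * k) f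
    have hexp : (Ideal.absNorm w.asIdeal - 1) / p = k * n := by
      rw [hf, hq1, ← hgs, Nat.add_sub_cancel]
      have : n * (p * k) = p * (k * n) := by ring
      rw [this, Nat.mul_div_cancel_left _ hp0]
    have hexp1 : (Ideal.absNorm W.asIdeal - 1) / p = k := by
      rw [hq1, Nat.add_sub_cancel, Nat.mul_div_cancel_left _ hp0]
    have hnf : ((n : ℕ) : ZMod p) = f := by
      rw [hn]
      push_cast
      simp
    have hεe : ε ^ ((f : ZMod p) * a).val = (ε ^ a.val) ^ n := by
      rw [← pow_mul]
      have hm : ((f : ZMod p) * a).val ≡ a.val * n [MOD p] := by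
        rw [← ZMod.natCast_eq_natCast_iff, ZMod.natCast_zmod_val, Nat.cast_mul,
          ZMod.natCast_zmod_val, hnf, mul_comm]
      rw [pow_eq_pow_mod _ hε.pow_eq_one, pow_eq_pow_mod (a.val * n) hε.pow_eq_one, hm]
    have h2 : (((inc F E x : Eˣ) : E) * ((inc F E y : Eˣ) : E) ^ p) ^
          ((Ideal.absNorm w.asIdeal - 1) / p) - algebraMap F E ε ^ ((f : ZMod p) * a).val =
        algebraMap F E ((((x : F) * (y : F) ^ p) ^ k) ^ n - (ε ^ a.val) ^ n) := by
      rw [map_sub, map_pow, map_pow, map_mul, map_pow, hexp, ← pow_mul, ← hεe, map_pow]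
      rfl
    rw [h2, he]
    refine pow_lt_one₀ zero_le ?_ he0
    rw [hexp1] at hy2
    refine val_pow_sub_pow ?_ ?_ hy2 n
    · rw [map_pow, hy1, one_pow]
    · rw [map_pow]
      refine pow_le_one' ?_ _
      have h3 : W.valuation F ε ^ p = 1 := by
        rw [← map_pow, hε.pow_eq_one, map_one]
      by_contra h4
      push Not at h4
      exact absurd h3 (one_lt_pow₀ h4 hp0.ne').ne'

end Pool.Agent.Helper39.REC
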